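import Pool.Agent.Helper212.Nabla.Fin

open Cardinal Set Helper212.Nabla

namespace Pool.Agent.Results.MP_93ea69_gt.NablaConstraints

theorem result :
    (¬ EE Om (2 ^ ℵ₁) →
      ((2 : Cardinal.{0}) ^ ℵ₀ = 2 ^ ℵ₁ ∨ ℵ_ (Ordinal.omega 1) ≤ (2 : Cardinal.{0}) ^ ℵ₀) ∧
      (∃ D : Set (Om → Om), #D < 2 ^ ℵ₁ ∧
        ∀ φ : Om → Om, ∃ ψ ∈ D, {α | ψ α < φ α}.Countable) ∧
      (∃ K : Set (Set (Om → ℕ)), #K < 2 ^ ℵ₁ ∧ (∀ S ∈ K, IsNowhereDense S) ∧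
        ⋃₀ K = Set.univ) ∧
      (∀ (M : Type) (C : Set (Set M)) (F : Set (Om → M)), #C < 2 ^ ℵ₁ →
        (∀ S ∈ C, #S ≤ ℵ₁) → (∀ T : Set M, #T ≤ ℵ₁ → ∃ S ∈ C, T ⊆ S) →
        (∀ f ∈ F, ∀ g ∈ F, f ≠ g → {α | f α = g α}.Countable) → #F < 2 ^ ℵ₁)) ∧
    (¬ ParacompactSpace (Nab Om) → ¬ EE Om (2 ^ ℵ₁) ∧ ¬ MHyp Om) := by
  refine ⟨fun hE => ⟨?_, ?_, ?_, ?_⟩, fun hP => ⟨fun hE => hP (para_of_EE card_Om hE),
    fun hM => hP (para_of_MHyp hM)⟩⟩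
  · by_contra hcon
    rw [not_or, not_le] at hcon
    have h1 : (2 : Cardinal.{0}) ^ ℵ₀ ≤ 2 ^ ℵ₁ :=
      Cardinal.power_le_power_left two_ne_zero Cardinal.aleph0_lt_aleph_one.le
    exact hE (EE_cont w1_Om card_Om (lt_of_le_of_ne h1 hcon.1) hcon.2)
  · by_contra hcon
    push Not at hcon
    exact hE (EE_dom w1_Om card_Om (Cardinal.aleph0_lt_aleph_one.trans aleph1_lt).le hcon)
  · by_contra hcon
    push Not at hcon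
    exact hE (EE_cov card_Om aleph1_lt hcon)
  · intro M C F hC hC1 hC2 hF
    by_contra hlt
    rw [not_lt] at hlt
    exact hE (EE_ad w1_Om card_Om (Cardinal.aleph0_lt_aleph_one.trans aleph1_lt) M C F hC hC1
      hC2 hlt hF)

end Pool.Agent.Results.MP_93ea69_gt.NablaConstraints
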